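import Pool.Agent.MP_c1891a_nt.H43.Spec

/-! Many roots outside a finite set, or a bounded relation. -/

namespace Pool.Agent.MP_c1891a_nt.H43

open Finset Polynomial

/-- a nonzero root of a polynomial with at most `k` terms has multiplicity less than `k`. -/
theorem many_sparse (α : ℂ) (hα : α ≠ 0) : ∀ (k : ℕ) (f : ℂ[X]), f.support.card ≤ k →
    (X - C α) ^ k ∣ f → f = 0 := by
  intro k
  induction k with
  | zero => intro f h _; simpa using h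
  | succ k ih =>
    intro f h hd
    by_contra hf
    obtain ⟨n, hn⟩ := support_nonempty.2 hf
    have hc : ∀ i : ℕ, (X * derivative f - C (n : ℂ) * f).coeff i = ((i : ℂ) - n) * f.coeff i := by
      intro i
      rw [coeff_sub, coeff_C_mul]
      cases i with
      | zero => simp
      | succ i => rw [coeff_X_mul, coeff_derivative]; push_cast; ring
    have hs : (X * derivative f - C (n : ℂ) * f).support ⊆ f.support.erase n := by
      intro i hi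
      rw [mem_support_iff, hc] at hi
      refine mem_erase.2 ⟨?_, mem_support_iff.2 (right_ne_zero_of_mul hi)⟩
      rintro rfl
      simp at hi
    have h0 := ih _ ((card_le_card hs).trans (by rw [card_erase_of_mem hn]; omega))
      (dvd_sub (Dvd.dvd.mul_left (by simpa using pow_sub_one_dvd_derivative_of_pow_dvd hd) _)
        (Dvd.dvd.mul_left ((pow_dvd_pow _ (Nat.le_succ k)).trans hd) _))
    have hm : f = monomial n (f.coeff n) := by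
      ext i
      rw [coeff_monomial]
      split_ifs with hi
      · rw [hi]
      · have := hc i
        rw [h0, coeff_zero] at this
        refine (mul_eq_zero.1 this.symm).resolve_left fun h => hi ?_
        exact_mod_cast (sub_eq_zero.1 h).symm
    have hr : f.eval α = 0 := dvd_iff_isRoot.1 ((dvd_pow_self _ (Nat.succ_ne_zero k)).trans hd)
    rw [hm, eval_monomial] at hr
    exact mul_ne_zero (mem_support_iff.1 hn) (pow_ne_zero _ hα) hr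

open Classical in
theorem many_gap (f : ℂ[X]) (i j : ℕ) (hi : f.coeff i ≠ 0) (hj : f.coeff j ≠ 0) :
    j ≤ i + (f.roots.filter fun α => α ≠ 0).card := by
  have h1 : f.roots.card = f.natDegree := IsAlgClosed.card_roots_eq_natDegree
  have h2 : (f.roots.filter fun α => ¬ α ≠ 0).card = f.natTrailingDegree := by
    rw [← rootMultiplicity_eq_natTrailingDegree', ← count_roots, Multiset.count_eq_card_filter_eq]
    exact congrArg _ (Multiset.filter_congr fun α _ => by simp [eq_comm])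
  have h3 := congrArg Multiset.card (Multiset.filter_add_not (fun α => α ≠ 0) f.roots)
  rw [Multiset.card_add] at h3
  have h4 := le_natDegree_of_ne_zero hj
  have h5 := natTrailingDegree_le_of_ne_zero hi
  omega

theorem many_root (f : ℂ[X]) (i j : ℕ) (hij : i ≠ j) (hi : f.coeff i ≠ 0) (hj : f.coeff j ≠ 0) :
    ∃ α, α ≠ 0 ∧ f.eval α = 0 := by
  classical
  have h1 := many_gap f i j hi hj
  have h2 := many_gap f j i hj hi
  obtain ⟨α, hα⟩ := Multiset.card_pos_iff_exists_mem.1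
    (show 0 < (f.roots.filter fun α => α ≠ 0).card by omega)
  rw [Multiset.mem_filter] at hα
  exact ⟨α, hα.2, (mem_roots'.1 hα.1).2⟩

theorem many_coeff {ι : Type} (T : Finset ι) (c : ι → ℂ) (e : ι → ℕ) (j : ℕ) :
    (∑ μ ∈ T, C (c μ) * X ^ e μ).coeff j = ∑ μ ∈ T.filter fun μ => e μ = j, c μ := by
  rw [finsetSum_coeff, sum_filter]
  refine sum_congr rfl fun μ _ => ?_
  rw [coeff_C_mul_X_pow]
  by_cases h : e μ = j
  · simp [h]
  · simp [h, Ne.symm h]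

theorem many_coeff_inj {ι : Type} (T : Finset ι) (c : ι → ℂ) (e : ι → ℕ) (he : Set.InjOn e T)
    (μ : ι) (hμ : μ ∈ T) : (∑ μ ∈ T, C (c μ) * X ^ e μ).coeff (e μ) = c μ := by
  rw [many_coeff, sum_eq_single μ]
  · intro ν hν h
    exact absurd (he (mem_filter.1 hν).1 hμ (mem_filter.1 hν).2) h
  · intro h
    exact absurd (by simpa using hμ) h

theorem many_pack {ι : Type} (T : Finset ι) (c : ι → ℂ) (n : ι → ℤ) (hn : Set.InjOn n T) :
    ∃ (p : ℂ[X]) (e : ι → ℕ), Set.InjOn e T ∧ (∀ μ ∈ T, p.coeff (e μ) = c μ) ∧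
      ∀ ρ : ℂ, ρ ≠ 0 → (p.eval ρ = 0 ↔ ∑ μ ∈ T, c μ * ρ ^ n μ = 0) := by
  have h0 : ∀ μ ∈ T, (((n μ + (T.sup fun ν => (n ν).natAbs : ℕ)).toNat : ℕ) : ℤ) =
      n μ + (T.sup fun ν => (n ν).natAbs : ℕ) := by
    intro μ hμ
    have := le_sup (f := fun ν => (n ν).natAbs) hμ
    omega
  generalize (T.sup fun ν => (n ν).natAbs) = N at h0
  have he : Set.InjOn (fun μ => (n μ + N).toNat) T := by
    intro μ hμ ν hν h
    have h1 := h0 μ hμ
    have h2 := h0 ν hν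
    refine hn hμ hν ?_
    simp only at h
    omega
  refine ⟨∑ μ ∈ T, C (c μ) * X ^ (n μ + N).toNat, _, he, many_coeff_inj T c _ he, fun ρ hρ => ?_⟩
  have : (∑ μ ∈ T, C (c μ) * X ^ (n μ + N).toNat).eval ρ = (∑ μ ∈ T, c μ * ρ ^ n μ) * ρ ^ N := by
    rw [eval_finsetSum, sum_mul]
    refine sum_congr rfl fun μ hμ => ?_
    rw [eval_mul, eval_C, eval_pow, eval_X, ← zpow_natCast, h0 μ hμ, zpow_add₀ hρ, zpow_natCast,
      mul_assoc]
  rw [this, mul_eq_zero, or_iff_left (pow_ne_zero _ hρ)]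

theorem many_box (P : LP) (μ : ℤ × ℤ) (hμ : μ ∈ P.coeff.support) :
    μ.1.natAbs ≤ Rn P ∧ μ.2.natAbs ≤ Rn P :=
  max_le_iff.1 (le_sup (f := fun μ : ℤ × ℤ => max μ.1.natAbs μ.2.natAbs) hμ)

theorem many_ex (P : LP) (v₁ v₂ : ℤ) (μ : ℤ × ℤ) (hμ : μ ∈ P.coeff.support) :
    (ex P v₁ v₂ μ : ℤ) = A1 P v₁ v₂ + v₁ * μ.1 + v₂ * μ.2 := by
  obtain ⟨h1, h2⟩ := many_box P μ hμ
  have a1 : (v₁ * μ.1).natAbs ≤ Rn P * v₁.natAbs := by
    rw [Int.natAbs_mul, mul_comm]; exact Nat.mul_le_mul_right _ h1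
  have a2 : (v₂ * μ.2).natAbs ≤ Rn P * v₂.natAbs := by
    rw [Int.natAbs_mul, mul_comm]; exact Nat.mul_le_mul_right _ h2
  have a3 : A1 P v₁ v₂ = Rn P * v₁.natAbs + Rn P * v₂.natAbs := mul_add _ _ _
  unfold ex
  omega

theorem many_eval (P : LP) (η₁ η₂ : ℂ) (v₁ v₂ : ℤ) (α : ℂ) (hα : α ≠ 0) :
    (F1 P η₁ η₂ v₁ v₂).eval α = α ^ A1 P v₁ v₂ * ev P (η₁ * α ^ v₁) (η₂ * α ^ v₂) := by
  unfold F1 ev
  rw [eval_finsetSum, mul_sum]
  refine sum_congr rfl fun μ hμ => ?_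
  rw [eval_mul, eval_C, eval_pow, eval_X, ← zpow_natCast, many_ex P v₁ v₂ μ hμ, zpow_add₀ hα,
    zpow_add₀ hα, zpow_natCast, mul_zpow, mul_zpow, ← zpow_mul, ← zpow_mul]
  ring

theorem many_cne (P : LP) (μ : ℤ × ℤ) (hμ : μ ∈ P.coeff.support) : (P.coeff μ : ℂ) ≠ 0 := by
  exact_mod_cast Finsupp.mem_support_iff.1 hμ

theorem many_coord {a b v₁ v₂ : ℤ} (h : a * v₁ + b * v₂ = 1) {μ ν : ℤ × ℤ}
    (h1 : v₁ * μ.1 + v₂ * μ.2 = v₁ * ν.1 + v₂ * ν.2)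
    (h2 : -b * μ.1 + a * μ.2 = -b * ν.1 + a * ν.2) : μ = ν :=
  Prod.ext (by linear_combination a * h1 - v₂ * h2 - (μ.1 - ν.1) * h)
    (by linear_combination b * h1 + v₁ * h2 - (μ.2 - ν.2) * h)

/-- no primitive linear form is constant on the support. -/
theorem many_nonconst (P : LP) (hP : NoCoset P) (hM : NonMon P) (v₁ v₂ : ℤ) (hv : IsCoprime v₁ v₂) :
    ∃ μ ∈ P.coeff.support, ∃ ν ∈ P.coeff.support, v₁ * μ.1 + v₂ * μ.2 ≠ v₁ * ν.1 + v₂ * ν.2 := by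
  by_contra hc
  push Not at hc
  obtain ⟨μ, ν, hne, hμ, hν⟩ := hM
  rw [← Finsupp.mem_support_iff] at hμ hν
  have hv0 : v₁ ≠ 0 ∨ v₂ ≠ 0 := by
    by_contra h
    push Not at h
    rw [h.1, h.2] at hv
    exact not_isCoprime_zero_zero hv
  obtain ⟨a, b, hab⟩ := hv
  obtain ⟨p, e, he, hp, hr⟩ := many_pack P.coeff.support (fun μ => (P.coeff μ : ℂ))
    (fun μ => -b * μ.1 + a * μ.2) fun x hx y hy h => many_coord hab (hc x hx y hy) h
  obtain ⟨ρ, h0, h1⟩ := many_root p (e μ) (e ν) (fun h => hne (he hμ hν h))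
    (by rw [hp μ hμ]; exact many_cne P μ hμ) (by rw [hp ν hν]; exact many_cne P ν hν)
  obtain ⟨t, ht, h⟩ := hP (ρ ^ (-b)) (ρ ^ a) (zpow_ne_zero _ h0) (zpow_ne_zero _ h0) v₁ v₂ hv0
  refine h ?_
  rw [← zero_mul (t ^ (v₁ * μ.1 + v₂ * μ.2)), ← (hr ρ h0).1 h1, sum_mul]
  refine sum_congr rfl fun x hx => ?_
  rw [← hc x hx μ hμ, zpow_add₀ ht, zpow_add₀ h0, mul_zpow, mul_zpow, ← zpow_mul, ← zpow_mul,
    ← zpow_mul, ← zpow_mul]
  ring

/-- the support is not collinear. -/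
theorem many_det (P : LP) (hP : NoCoset P) (hM : NonMon P) :
    ∃ μ ∈ P.coeff.support, ∃ ν ∈ P.coeff.support, ∃ κ ∈ P.coeff.support,
      (ν.1 - μ.1) * (κ.2 - μ.2) - (ν.2 - μ.2) * (κ.1 - μ.1) ≠ 0 := by
  by_contra hc
  push Not at hc
  obtain ⟨μ, ν, hne, hμ, hν⟩ := id hM
  rw [← Finsupp.mem_support_iff] at hμ hν
  have hg : 0 < Int.gcd (ν.1 - μ.1) (ν.2 - μ.2) := by
    rw [Int.gcd_pos_iff]
    by_contra h
    push Not at h
    exact hne (Prod.ext (by linarith [h.1]) (by linarith [h.2]))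
  obtain ⟨e₁, e₂, he, h1, h2⟩ := Int.exists_gcd_one hg
  generalize Int.gcd (ν.1 - μ.1) (ν.2 - μ.2) = g at hg h1 h2
  have key : ∀ κ ∈ P.coeff.support, -e₂ * κ.1 + e₁ * κ.2 = -e₂ * μ.1 + e₁ * μ.2 := by
    intro κ hκ
    have h := hc μ hμ ν hν κ hκ
    rw [h1, h2] at h
    refine mul_left_cancel₀ (show (g : ℤ) ≠ 0 by exact_mod_cast hg.ne') ?_
    linear_combination h
  obtain ⟨x, hx, y, hy, h⟩ := many_nonconst P hP hM (-e₂) e₁
    (Int.isCoprime_iff_gcd_eq_one.2 he).symm.neg_left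
  exact h ((key x hx).trans (key y hy).symm)

/-- the exceptional values for a fixed direction. -/
theorem many_small (P : LP) (hP : NoCoset P) (hM : NonMon P) (Z : Finset (ℂ × ℂ)) (v₁ v₂ : ℤ) :
    ∃ Θ : Set ℂ, Θ.Finite ∧ ∀ η₁ η₂ : ℂ, η₁ ≠ 0 → η₂ ≠ 0 → IsCoprime v₁ v₂ →
      (∀ α, α ≠ 0 → (F1 P η₁ η₂ v₁ v₂).eval α = 0 → (η₁ * α ^ v₁, η₂ * α ^ v₂) ∈ Z) →
      η₁ ^ (-v₂) * η₂ ^ v₁ ∈ Θ := by
  by_cases hv : IsCoprime v₁ v₂
  swap
  · exact ⟨∅, Set.finite_empty, fun _ _ _ _ h => absurd h hv⟩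
  obtain ⟨μ, hμ, ν, hν, hne⟩ := many_nonconst P hP hM v₁ v₂ hv
  obtain ⟨a, b, hab⟩ := hv
  have fin : ∀ κ ∈ P.coeff.support, ∃ Θ : Set ℂ, Θ.Finite ∧ ∀ η₁ η₂ : ℂ, η₁ ≠ 0 → η₂ ≠ 0 →
      (F1 P η₁ η₂ v₁ v₂).coeff (ex P v₁ v₂ κ) = 0 → η₁ ^ (-v₂) * η₂ ^ v₁ ∈ Θ := by
    intro κ hκ
    have hx : ∀ x ∈ P.coeff.support.filter fun x => ex P v₁ v₂ x = ex P v₁ v₂ κ,
        v₁ * x.1 + v₂ * x.2 = v₁ * κ.1 + v₂ * κ.2 := by
      intro x hx
      have h1 := many_ex P v₁ v₂ x (mem_filter.1 hx).1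
      rw [(mem_filter.1 hx).2, many_ex P v₁ v₂ κ hκ] at h1
      linarith
    obtain ⟨p, e, _, hp, hr⟩ := many_pack
      (P.coeff.support.filter fun x => ex P v₁ v₂ x = ex P v₁ v₂ κ) (fun μ => (P.coeff μ : ℂ))
      (fun μ => -b * μ.1 + a * μ.2) fun x h1 y h2 h =>
        many_coord hab ((hx x h1).trans (hx y h2).symm) h
    have hp0 : p ≠ 0 := fun h => many_cne P κ hκ (by
      rw [← hp κ (mem_filter.2 ⟨hκ, rfl⟩), h, coeff_zero])
    refine ⟨{ρ | p.IsRoot ρ}, finite_setOfPred_isRoot hp0, fun η₁ η₂ h1 h2 h => ?_⟩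
    refine (hr _ (mul_ne_zero (zpow_ne_zero _ h1) (zpow_ne_zero _ h2))).2 ?_
    unfold F1 at h
    rw [many_coeff] at h
    refine mul_right_cancel₀ (mul_ne_zero (zpow_ne_zero (a * (v₁ * κ.1 + v₂ * κ.2)) h1)
      (zpow_ne_zero (b * (v₁ * κ.1 + v₂ * κ.2)) h2)) ?_
    rw [zero_mul, ← h, sum_mul]
    refine sum_congr rfl fun x hx' => ?_
    have e1 : x.1 = -v₂ * (-b * x.1 + a * x.2) + a * (v₁ * κ.1 + v₂ * κ.2) := by
      linear_combination a * hx x hx' - x.1 * hab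
    have e2 : x.2 = v₁ * (-b * x.1 + a * x.2) + b * (v₁ * κ.1 + v₂ * κ.2) := by
      linear_combination b * hx x hx' - x.2 * hab
    have f1 : η₁ ^ x.1 = η₁ ^ (-v₂ * (-b * x.1 + a * x.2)) * η₁ ^ (a * (v₁ * κ.1 + v₂ * κ.2)) := by
      rw [← zpow_add₀ h1, ← e1]
    have f2 : η₂ ^ x.2 = η₂ ^ (v₁ * (-b * x.1 + a * x.2)) * η₂ ^ (b * (v₁ * κ.1 + v₂ * κ.2)) := by
      rw [← zpow_add₀ h2, ← e2]
    rw [f1, f2, mul_zpow, ← zpow_mul, ← zpow_mul]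
    ring
  obtain ⟨Θ₁, a1, b1⟩ := fin μ hμ
  obtain ⟨Θ₂, a2, b2⟩ := fin ν hν
  refine ⟨(fun z : ℂ × ℂ => z.1 ^ (-v₂) * z.2 ^ v₁) '' Z ∪ (Θ₁ ∪ Θ₂),
    (Z.finite_toSet.image _).union (a1.union a2), fun η₁ η₂ h1 h2 _ h => ?_⟩
  by_cases c1 : (F1 P η₁ η₂ v₁ v₂).coeff (ex P v₁ v₂ μ) = 0
  · exact Or.inr (Or.inl (b1 _ _ h1 h2 c1))
  by_cases c2 : (F1 P η₁ η₂ v₁ v₂).coeff (ex P v₁ v₂ ν) = 0
  · exact Or.inr (Or.inr (b2 _ _ h1 h2 c2))
  obtain ⟨α, h0, hr⟩ := many_root _ _ _ (fun h => hne (by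
    have e1 := many_ex P v₁ v₂ μ hμ
    rw [h, many_ex P v₁ v₂ ν hν] at e1
    linarith)) c1 c2
  refine Or.inl ⟨_, h α h0 hr, ?_⟩
  have : α ^ (v₁ * -v₂) * α ^ (v₂ * v₁) = 1 := by
    rw [← zpow_add₀ h0, show v₁ * -v₂ + v₂ * v₁ = 0 by ring, zpow_zero]
  simp only [mul_zpow, ← zpow_mul]
  linear_combination η₁ ^ (-v₂) * η₂ ^ v₁ * this

theorem many_order (U : Set ℂ) (hU : U.Finite) : ∃ s : ℕ, 0 < s ∧ ∀ ρ ∈ U, Tor ρ → ρ ^ s = 1 := by
  classical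
  refine ⟨∏ ρ ∈ hU.toFinset.filter IsOfFinOrder, orderOf ρ,
    prod_pos fun ρ h => (mem_filter.1 h).2.orderOf_pos, fun ρ h ht => ?_⟩
  exact orderOf_dvd_iff_pow_eq_one.1 (dvd_prod_of_mem _
    (mem_filter.2 ⟨hU.mem_toFinset.2 h, isOfFinOrder_iff_pow_eq_one.2 ht⟩))

theorem many_tor {x y : ℂ} (hx : Tor x) (hy : Tor y) (a b : ℤ) : Tor (x ^ a * y ^ b) := by
  obtain ⟨m, hm, h1⟩ := hx
  obtain ⟨n, hn, h2⟩ := hy
  have k : ∀ (z : ℂ) (c : ℤ) (l : ℕ), z ^ l = 1 → (z ^ c) ^ l = 1 := fun z c l h => by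
    rw [← zpow_natCast, ← zpow_mul, mul_comm, zpow_mul, zpow_natCast, h, one_zpow]
  refine ⟨m * n, Nat.mul_pos hm hn, ?_⟩
  rw [mul_pow, k x a _ (by rw [pow_mul, h1, one_pow]), k y b _ (by rw [pow_mul', h2, one_pow]),
    one_mul]

theorem many_ne {x : ℂ} (hx : Tor x) : x ≠ 0 := by
  obtain ⟨m, hm, h⟩ := hx
  rintro rfl
  rw [zero_pow hm.ne'] at h
  exact zero_ne_one h

open Classical in
/-- the roots with a point in `Z` are few. -/
theorem many_bad (P : LP) (Z : Finset (ℂ × ℂ)) (η₁ η₂ : ℂ) (v₁ v₂ : ℤ) (h1 : η₁ ≠ 0) (h2 : η₂ ≠ 0)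
    (hv : IsCoprime v₁ v₂) :
    ((F1 P η₁ η₂ v₁ v₂).roots.filter fun α => α ≠ 0).card ≤
      ((F1 P η₁ η₂ v₁ v₂).roots.filter fun α => α ≠ 0 ∧ (η₁ * α ^ v₁, η₂ * α ^ v₂) ∉ Z).card +
        Z.card * P.coeff.support.card := by
  obtain ⟨a, b, hab⟩ := hv
  have hs : (F1 P η₁ η₂ v₁ v₂).support.card ≤ P.coeff.support.card := by
    refine le_trans (card_le_card fun j hj => ?_) (card_image_le (f := ex P v₁ v₂))
    rw [mem_support_iff] at hj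
    unfold F1 at hj
    rw [many_coeff] at hj
    obtain ⟨μ, hμ, _⟩ := exists_ne_zero_of_sum_ne_zero hj
    exact mem_image.2 ⟨μ, (mem_filter.1 hμ).1, (mem_filter.1 hμ).2⟩
  generalize F1 P η₁ η₂ v₁ v₂ = F at hs ⊢
  have h3 := congrArg Multiset.card (Multiset.filter_add_not
    (fun α => (η₁ * α ^ v₁, η₂ * α ^ v₂) ∉ Z) (F.roots.filter fun α => α ≠ 0))
  rw [Multiset.card_add, Multiset.filter_filter, Multiset.filter_filter] at h3
  have h4 : (F.roots.filter fun α => (η₁ * α ^ v₁, η₂ * α ^ v₂) ∉ Z ∧ α ≠ 0) =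
      F.roots.filter fun α => α ≠ 0 ∧ (η₁ * α ^ v₁, η₂ * α ^ v₂) ∉ Z :=
    Multiset.filter_congr fun α _ => and_comm
  rw [← h3, h4]
  refine Nat.add_le_add_left ?_ _
  rw [← Multiset.toFinset_sum_count_eq]
  refine (sum_le_card_nsmul _ _ P.coeff.support.card fun α hα => ?_).trans ?_
  · rw [Multiset.mem_toFinset, Multiset.mem_filter] at hα
    refine (Multiset.count_le_of_le α (Multiset.filter_le _ _)).trans ?_
    rw [count_roots]
    by_contra hc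
    exact (mem_roots'.1 hα.1).1 (many_sparse α hα.2.2 _ F hs
      ((pow_dvd_pow _ (not_le.1 hc).le).trans (pow_rootMultiplicity_dvd F α)))
  · rw [smul_eq_mul]
    refine Nat.mul_le_mul_right _ (card_le_card_of_injOn
      (fun α => (η₁ * α ^ v₁, η₂ * α ^ v₂)) (fun α hα => ?_) fun α hα β hβ h => ?_)
    · rw [mem_coe, Multiset.mem_toFinset, Multiset.mem_filter] at hα
      exact not_not.1 hα.2.1
    · rw [mem_coe, Multiset.mem_toFinset, Multiset.mem_filter] at hα hβ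
      have k : ∀ γ : ℂ, γ ≠ 0 → γ = (γ ^ v₁) ^ a * (γ ^ v₂) ^ b := fun γ hγ => by
        rw [← zpow_mul, ← zpow_mul, ← zpow_add₀ hγ, show v₁ * a + v₂ * b = 1 by linarith, zpow_one]
      rw [k α hα.2.2, k β hβ.2.2, mul_left_cancel₀ h1 (congrArg Prod.fst h),
        mul_left_cancel₀ h2 (congrArg Prod.snd h)]

theorem many_inj {R : ℕ} {v₁ v₂ d₁ d₂ : ℤ} (hv : IsCoprime v₁ v₂) (hl : 2 * R < v₁.natAbs)
    (h2 : d₂.natAbs ≤ 2 * R) (h : v₁ * d₁ + v₂ * d₂ = 0) : d₁ = 0 ∧ d₂ = 0 := by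
  have a : v₁ ∣ d₂ := hv.dvd_of_dvd_mul_left ⟨-d₁, by linarith⟩
  have b : d₂ = 0 := Int.eq_zero_of_dvd_of_natAbs_lt_natAbs a (by omega)
  rw [b, mul_zero, add_zero] at h
  exact ⟨(mul_eq_zero.1 h).resolve_left (by omega), b⟩

open Classical in
/-- many nonzero roots for a long vector. -/
theorem many_large (P : LP) (hP : NoCoset P) (hM : NonMon P) (η₁ η₂ : ℂ) (v₁ v₂ : ℤ) (h1 : η₁ ≠ 0)
    (h2 : η₂ ≠ 0) (hv : IsCoprime v₁ v₂) (hl : 2 * Rn P < v₁.natAbs ∨ 2 * Rn P < v₂.natAbs) :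
    v₁.natAbs + v₂.natAbs ≤ 8 * Rn P * ((F1 P η₁ η₂ v₁ v₂).roots.filter fun α => α ≠ 0).card := by
  have he : Set.InjOn (ex P v₁ v₂) P.coeff.support := by
    intro μ hμ ν hν h
    have e1 := many_ex P v₁ v₂ μ hμ
    rw [h, many_ex P v₁ v₂ ν hν] at e1
    obtain ⟨a1, a2⟩ := many_box P μ hμ
    obtain ⟨b1, b2⟩ := many_box P ν hν
    rcases hl with hl | hl
    · obtain ⟨c1, c2⟩ := many_inj (d₁ := μ.1 - ν.1) (d₂ := μ.2 - ν.2) hv hl (by omega) (by linarith)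
      exact Prod.ext (by linarith) (by linarith)
    · obtain ⟨c1, c2⟩ := many_inj (d₁ := μ.2 - ν.2) (d₂ := μ.1 - ν.1) hv.symm hl (by omega)
        (by linarith)
      exact Prod.ext (by linarith) (by linarith)
  have hc : ∀ μ ∈ P.coeff.support, (F1 P η₁ η₂ v₁ v₂).coeff (ex P v₁ v₂ μ) ≠ 0 := by
    intro μ hμ
    unfold F1
    rw [many_coeff_inj _ _ _ he μ hμ]
    exact mul_ne_zero (mul_ne_zero (many_cne P μ hμ) (zpow_ne_zero _ h1)) (zpow_ne_zero _ h2)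
  have hd : ∀ μ ∈ P.coeff.support, ∀ ν ∈ P.coeff.support,
      (v₁ * (ν.1 - μ.1) + v₂ * (ν.2 - μ.2)).natAbs ≤
        ((F1 P η₁ η₂ v₁ v₂).roots.filter fun α => α ≠ 0).card := by
    intro μ hμ ν hν
    have a1 := many_gap _ _ _ (hc μ hμ) (hc ν hν)
    have a2 := many_gap _ _ _ (hc ν hν) (hc μ hμ)
    have e1 := many_ex P v₁ v₂ μ hμ
    have e2 := many_ex P v₁ v₂ ν hν
    rw [mul_sub, mul_sub]
    omega
  generalize ((F1 P η₁ η₂ v₁ v₂).roots.filter fun α => α ≠ 0).card = D at hd ⊢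
  obtain ⟨μ, hμ, ν, hν, κ, hκ, hdet⟩ := many_det P hP hM
  obtain ⟨a1, a2⟩ := many_box P μ hμ
  obtain ⟨b1, b2⟩ := many_box P ν hν
  obtain ⟨c1, c2⟩ := many_box P κ hκ
  have k : ∀ v d x y p q : ℤ, d ≠ 0 → v * d = x * p - y * q → x.natAbs ≤ D → y.natAbs ≤ D →
      p.natAbs ≤ 2 * Rn P → q.natAbs ≤ 2 * Rn P → v.natAbs ≤ 4 * (Rn P * D) := by
    intro v d x y p q hd0 h hx hy hp hq
    have i1 : v.natAbs ≤ (v * d).natAbs := by
      rw [Int.natAbs_mul]; exact Nat.le_mul_of_pos_right _ (Int.natAbs_pos.2 hd0)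
    have i2 := Int.natAbs_sub_le (x * p) (y * q)
    rw [← h, Int.natAbs_mul x, Int.natAbs_mul y] at i2
    have i3 := Nat.mul_le_mul hx hp
    have i4 := Nat.mul_le_mul hy hq
    have i5 : D * (2 * Rn P) = 2 * (Rn P * D) := by ring
    omega
  have k1 := k v₁ _ _ _ (κ.2 - μ.2) (ν.2 - μ.2) hdet (by ring) (hd μ hμ ν hν) (hd μ hμ κ hκ)
    (by omega) (by omega)
  have k2 := k v₂ _ _ _ (ν.1 - μ.1) (κ.1 - μ.1) hdet (by ring) (hd μ hμ κ hκ) (hd μ hμ ν hν)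
    (by omega) (by omega)
  rw [mul_assoc]
  omega

theorem sMany : SMany := by
  classical
  intro P hP hM Z
  obtain ⟨B₀, hB₀⟩ : ∃ B₀, B₀ = 16 * (Rn P + 1) * (Z.card * P.coeff.support.card + 1) := ⟨_, rfl⟩
  choose Θ hΘ hΘ' using many_small P hP hM Z
  obtain ⟨s, hs, hs'⟩ := many_order
    (⋃ v ∈ (Finset.Icc (-(B₀ : ℤ)) B₀ ×ˢ Finset.Icc (-(B₀ : ℤ)) B₀ : Finset (ℤ × ℤ)), Θ v.1 v.2)
    (Set.Finite.biUnion (Finset.finite_toSet _) fun v _ => hΘ v.1 v.2)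
  obtain ⟨K, hK⟩ : ∃ K, K = 16 * (Rn P * Rn P) + 2 * (Rn P * B₀) + 1 := ⟨_, rfl⟩
  have hK0 : (0 : ℝ) < K := by exact_mod_cast (show 0 < K by omega)
  refine ⟨1 / K, max B₀ s, by positivity, fun η₁ η₂ v₁ v₂ t1 t2 hv => ?_⟩
  have n1 := many_ne t1
  have n2 := many_ne t2
  have hbad := many_bad P Z η₁ η₂ v₁ v₂ n1 n2 hv
  have fin : ∀ G : Multiset ℂ, G = ((F1 P η₁ η₂ v₁ v₂).roots.filter fun α =>
      α ≠ 0 ∧ (η₁ * α ^ v₁, η₂ * α ^ v₂) ∉ Z) → 1 ≤ G.card → A1 P v₁ v₂ ≤ K * G.card →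
      ∃ s : Multiset ℂ, s ≤ (F1 P η₁ η₂ v₁ v₂).roots ∧ 1 ≤ s.card ∧
        1 / (K : ℝ) * A1 P v₁ v₂ ≤ s.card ∧ ∀ α ∈ s, α ≠ 0 ∧ (η₁ * α ^ v₁, η₂ * α ^ v₂) ∉ Z := by
    intro G hG a b
    refine ⟨G, hG ▸ Multiset.filter_le _ _, a, ?_, fun α hα => ?_⟩
    · rw [one_div, inv_mul_le_iff₀ hK0]; exact_mod_cast b
    · rw [hG] at hα; exact (Multiset.mem_filter.1 hα).2
  obtain ⟨G, hG⟩ : ∃ G, G = ((F1 P η₁ η₂ v₁ v₂).roots.filter fun α =>
      α ≠ 0 ∧ (η₁ * α ^ v₁, η₂ * α ^ v₂) ∉ Z) := ⟨_, rfl⟩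
  rw [← hG] at hbad
  by_cases hl : v₁.natAbs ≤ B₀ ∧ v₂.natAbs ≤ B₀
  · by_cases h0 : G.card = 0
    · left
      have hv0 : v₁ ≠ 0 ∨ v₂ ≠ 0 := by
        by_contra h
        push Not at h
        rw [h.1, h.2] at hv
        exact not_isCoprime_zero_zero hv
      have hF : F1 P η₁ η₂ v₁ v₂ ≠ 0 := by
        obtain ⟨t, ht, h⟩ := hP η₁ η₂ n1 n2 v₁ v₂ hv0
        intro h'
        have := many_eval P η₁ η₂ v₁ v₂ t ht
        rw [h', eval_zero] at this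
        exact mul_ne_zero (pow_ne_zero _ ht) h this.symm
      have hm := le_max_left B₀ s
      refine ⟨by rw [Int.abs_eq_natAbs]; omega, by rw [Int.abs_eq_natAbs]; omega, s, hs,
        le_max_right _ _, hs' _ ?_ (many_tor t1 t2 _ _)⟩
      refine Set.mem_iUnion₂.2 ⟨(v₁, v₂), ?_, hΘ' v₁ v₂ η₁ η₂ n1 n2 hv fun α a b => ?_⟩
      · simp only [mem_product, Finset.mem_Icc]
        omega
      · by_contra c
        have : α ∈ G := hG ▸ Multiset.mem_filter.2 ⟨mem_roots'.2 ⟨hF, b⟩, a, c⟩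
        rw [Multiset.card_eq_zero.1 h0] at this
        exact Multiset.notMem_zero _ this
    · right
      refine fin G hG (by omega) ?_
      have a1 : A1 P v₁ v₂ ≤ Rn P * (B₀ + B₀) := Nat.mul_le_mul_left _ (by omega)
      have a2 : K ≤ K * G.card := Nat.le_mul_of_pos_right _ (by omega)
      rw [mul_add] at a1
      omega
  · right
    have b1 : 16 * (Rn P + 1) ≤ B₀ := hB₀ ▸ Nat.le_mul_of_pos_right _ (by omega)
    have b2 := many_large P hP hM η₁ η₂ v₁ v₂ n1 n2 hv (by omega)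
    generalize ((F1 P η₁ η₂ v₁ v₂).roots.filter fun α => α ≠ 0).card = D at hbad b2
    generalize Z.card * P.coeff.support.card = W at hbad hB₀
    have b3 : 2 * (W + 1) ≤ D := by
      by_contra h
      have : 8 * Rn P * D ≤ 8 * (Rn P + 1) * (2 * (W + 1)) := Nat.mul_le_mul (by omega) (by omega)
      have e : 8 * (Rn P + 1) * (2 * (W + 1)) = 16 * (Rn P + 1) * (W + 1) := by ring
      omega
    refine fin G hG (by omega) ?_
    calc A1 P v₁ v₂ ≤ Rn P * (8 * Rn P * (2 * G.card)) :=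
          Nat.mul_le_mul_left _ (b2.trans (Nat.mul_le_mul_left _ (by omega)))
      _ = 16 * (Rn P * Rn P) * G.card := by ring
      _ ≤ K * G.card := Nat.mul_le_mul_right _ (by omega)

end Pool.Agent.MP_c1891a_nt.H43
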